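import Pool.Agent.K4H15.DP.Main
import Pool.Agent.Y683.Cent
import Pool.Agent.W765.HK.Pair
import Pool.Agent.W216.CY.Div
import Pool.Agent.W287.HK.Basic
import Pool.Agent.W571.HK.Cls
import Pool.Agent.W53.HK.Fp
import Pool.Agent.W366.HK.Fpr
import Pool.Agent.W585.HK.LAT
import Pool.Agent.W692.HK.Ker
import Pool.Agent.W584.HK.CNT
import Pool.Agent.W513.HK.Divr
import Pool.Agent.W822.HK.MU
import Pool.Agent.W240.HK.Count
import Pool.Agent.W856.HK.Dec
import Pool.Agent.W636.HK.Gauss
import Pool.Agent.W348.HK.Pois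

/-!
# Hecke characters of imaginary quadratic fields: the coefficient field of Deligne's conjecture is
generated by the algebraic part of the central value

`R` is the ring of integers of an imaginary quadratic field `K` (any class number), `θ` a primitive
Hecke character of `K` of infinity type `(2m - 1, 0)`, `m ≥ 1`, of conductor `q`. The motive `M(θ)` has
odd weight `2m - 1` and its coefficient field is the field of the values of `θ`; the central point
`s = m` is critical, and the period at `m` is `Ω ^ (2m - 1) / π ^ (m - 1)`, where `Ω` is a period of an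
elliptic curve with complex multiplication by `R`. Let `A = conj (L(θ, m)) π ^ (m - 1) / Ω ^ (2m - 1)`
be the algebraic part of the central value. There is a number field `E`, which depends on `K` only,
such that, for all finite families of characters `θ i` (of any weights and conductors, with finite
parts of order `d i`) and all integers `n i`:

* if `d i ∣ n i`, the product `P = ∏ A(θ i) ^ n i` is in `E(θ 1, θ 2, ...)` (the exponents are there
  because we fix the period `Ω`, the same for all `θ`: Deligne's period of `M(θ)` is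
  `Ω ^ (2m - 1) / π ^ (m - 1)` times a number whose `d`-th power is in `E(θ)`);
* conversely, let the values `L(θ i, m i)` and the integers `n i` be nonzero, and let the conductor of
  `θ i` be `f i * c i`, where the norm of `c i` is squarefree and prime to the norms of `f i` and of
  the other conductors. Then the field `E(P)` contains the values of every `θ i` at the principal
  ideals `(α)`, `α ≡ 1 mod f i`. For `f i = (1)` these are all principal ideals, and in class number
  one `E(P) = E(θ 1, θ 2, ...)` if `d i ∣ n i`: the field which is predicted by Deligne's conjecture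
  cannot be made smaller, and it is generated by the single number `P`. For one character this is
  `E(A ^ d) = E(θ)`. For two characters of the same weight and `n = (n 1, - n 1)` no period is
  involved: the ratio of the two central values generates both coefficient fields;
* moreover `∏ L(θ i, m i) ^ n i` determines all the `θ i` on these principal ideals among the
  characters of the same types and conductors;
* `L(θ, m) ≠ 0` if `N(q)` is large, `d ≥ N(q) ^ (2/3 + ε)` and `d ^ 2 ≥ m N(q) ^ (1 + ε)`.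

Proof. An automorphism of the complex numbers over `E` takes `A(θ)` to a root of unity times the
algebraic part of the conjugate of `θ` (the value is a sum of values of elliptic expressions at torsion
points, `Pool.Agent.TH936.CW`). By the functional equation `L(θ, m) = W(θ) conj (L(θ, m))`, so that
`P ≠ 0` determines `∏ W(θ i) ^ n i`, hence a product of powers of the Gauss sums of the finite parts. At
a prime which divides `N(c i)` the other Gauss sums are units, and by Stickelberger's congruence the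
valuations of the Gauss sum of `θ i` determine the component of its finite part at this prime.
-/

set_option autoImplicit false

open Complex

namespace Pool.Agent.Results.MP_cd171c_nt.CoefficientFieldGenerated

/-- The norm `N(I)` of an ideal (`0` for the zero ideal, whose residue ring is infinite). -/
noncomputable def norm {R : Subring ℂ} (I : Ideal R) : ℕ := Nat.card (R ⧸ I)

/-- `θ`, a function on the ideals of `R`, is a primitive Hecke character of conductor `q` and infinity
type `(n, 0)`: it is multiplicative, vanishes exactly at the zero ideal and the ideals not prime to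
`q`, satisfies `θ((α)) = α ^ n` for `α ≡ 1 mod q`, and this fails for every strictly larger ideal `q'`
in place of `q`. -/
structure IsHecke {R : Subring ℂ} (n : ℕ) (q : Ideal R) (θ : Ideal R → ℂ) : Prop where
  ne_bot : q ≠ ⊥
  mul : ∀ I J : Ideal R, θ (I * J) = θ I * θ J
  eq_zero : ∀ I : Ideal R, θ I = 0 ↔ (I = ⊥ ∨ ¬ IsCoprime I q)
  principal : ∀ α : R, α ≠ 0 → α - 1 ∈ q → θ (Ideal.span {α}) = (α : ℂ) ^ n
  primitive : ∀ q' : Ideal R, q < q' → ∃ α : R, α ≠ 0 ∧ α - 1 ∈ q' ∧ IsCoprime (Ideal.span {α}) q ∧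
    θ (Ideal.span {α}) ≠ (α : ℂ) ^ n

/-- `d` is the order of the finite part `α ↦ θ((α)) / α ^ n` of `θ` on the elements prime to `q`. -/
def FinitePartOrder {R : Subring ℂ} (n : ℕ) (q : Ideal R) (θ : Ideal R → ℂ) (d : ℕ) : Prop :=
  IsLeast {e : ℕ | 0 < e ∧ ∀ α : R, IsCoprime (Ideal.span {α}) q →
    (θ (Ideal.span {α}) / (α : ℂ) ^ n) ^ e = 1} d

/-- `x` is the central value: the value at `m` of the entire function which equals
`∑ θ(I) N(I) ^ (-s)` for `Re s > m + 1/2`. -/
def CentralValue {R : Subring ℂ} (m : ℕ) (θ : Ideal R → ℂ) (x : ℂ) : Prop :=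
  ∃ L : ℂ → ℂ, Differentiable ℂ L ∧ (∀ s : ℂ, (m : ℝ) + 1 / 2 < s.re →
    HasSum (fun I : Ideal R => θ I * (norm I : ℂ) ^ (-s)) (L s)) ∧ x = L m

/-- The algebraic part `conj x * π ^ (m - 1) / Ω ^ (2m - 1)` of a central value `x`. -/
noncomputable def algPart (Ω : ℂ) (m : ℕ) (x : ℂ) : ℂ :=
  (starRingEnd ℂ) x * (Real.pi : ℂ) ^ (m - 1) / Ω ^ (2 * m - 1)

/-- The field `E(S)` in the complex numbers. -/
noncomputable def adj (E : IntermediateField ℚ ℂ) (S : Set ℂ) : IntermediateField ℚ ℂ :=
  E ⊔ IntermediateField.adjoin ℚ S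

theorem isHecke_iff {R : Subring ℂ} (n : ℕ) (f : Ideal R) (ψ : Ideal R → ℂ) :
    IsHecke n f ψ ↔ Pool.Agent.W192.HK.HC n f ψ :=
  ⟨fun h => ⟨h.ne_bot, h.mul, h.eq_zero, h.principal, h.primitive⟩,
    fun h => ⟨h.ne, h.mul, h.zero, h.princ, h.prim⟩⟩

theorem central_iff {R : Subring ℂ} (m : ℕ) (θ : Ideal R → ℂ) (x : ℂ) :
    CentralValue m θ x ↔ ∃ F : ℂ → ℂ, Pool.Agent.K4H15.DP.IsLV m θ F ∧ x = F m := by
  have h : ∀ I : Ideal R, ((norm I : ℕ) : ℂ) = (Pool.Agent.W192.HK.nm I : ℂ) := by
    intro I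
    unfold norm Pool.Agent.W192.HK.nm
    push_cast
    rfl
  unfold CentralValue
  simp only [h]
  exact ⟨fun ⟨L, h1, h2, h3⟩ => ⟨L, ⟨h1, h2⟩, h3⟩, fun ⟨L, h1, h3⟩ => ⟨L, h1.diff, h1.sum, h3⟩⟩

/-- the finite part has an order -/
theorem exists_order {R : Subring ℂ} {ω : ℂ} (h1 : Pool.Agent.W192.HK.H_BASIC)
    (h2 : Pool.Agent.W192.HK.H_FP) (hR : Pool.Agent.W192.HK.QR R ω) {m : ℕ} (hm : 1 ≤ m)
    {q : Ideal R} {θ : Ideal R → ℂ} (hθ : Pool.Agent.W192.HK.HC (2 * m - 1) q θ) :
    ∃ d : ℕ, FinitePartOrder (2 * m - 1) q θ d := by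
  classical
  obtain ⟨t, ht0, ht⟩ := Pool.Agent.K4H15.DP.exists_ord h1 h2 hR hθ.ne (hθ.ne_top hm)
  have hex : ∃ e : ℕ, 0 < e ∧ ∀ α : R, IsCoprime (Ideal.span {α}) q →
      (θ (Ideal.span {α}) / (α : ℂ) ^ (2 * m - 1)) ^ e = 1 :=
    ⟨t, ht0, fun α hα => ht _ _ hθ α hα⟩
  exact ⟨Nat.find hex, Nat.find_spec hex, fun e he => Nat.find_min' hex he⟩

/-- The product of the powers `A i ^ n i` of the algebraic parts of the central values `x i`. -/
noncomputable def algProd {k : ℕ} (Ω : ℂ) (m : Fin k → ℕ) (x : Fin k → ℂ) (n : Fin k → ℤ) : ℂ :=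
  ∏ i, algPart Ω (m i) (x i) ^ n i

/-- The values of all the characters `θ i`. -/
def values {R : Subring ℂ} {k : ℕ} (θ : Fin k → Ideal R → ℂ) : Set ℂ := ⋃ i, Set.range (θ i)

/-- **Main theorem.** Let `R = ℤ + ℤ ω` be a subring of `ℂ` that is a lattice and a Dedekind domain.
There are a number field `E` in `ℂ` and an elliptic curve with equation over `E` and period lattice
`Ω R` such that, for every finite family of primitive Hecke characters `θ i` of `R` of types
`(2 m i - 1, 0)`, `m i ≥ 1`, of conductors `f i * c i` and with finite parts of orders `d i`, and for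
all integers `n i`: the central values `x i` exist, and, with `P = ∏ A i ^ n i` for their algebraic
parts `A i`, we have `P ∈ E(θ 1, θ 2, ...)` if `d i ∣ n i` for all `i`. If all `x i` and `n i` are
nonzero and the norm of each `c i` is squarefree and prime to the norms of `f i` and of the other
conductors, then the values of `θ i` at the ideals `(α)`, `α ≡ 1 mod f i`, are in `E(P)`, and the
number `∏ x i ^ n i` determines them among the families of the same types and conductors. In
particular `E(P) = E(θ 1, θ 2, ...)` if `R` is principal, `f i = (1)` and `d i ∣ n i`. Moreover for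
every `ε > 0` the central value of one `θ` of type `(2m - 1, 0)` and of conductor `q` is not `0` if
`N(q)` is large, `d ≥ N(q) ^ (2/3 + ε)` and `d ^ 2 ≥ m N(q) ^ (1 + ε)`. -/
theorem result (R : Subring ℂ) (ω : ℂ) (hω : 0 < ω.im)
    (hR : ∀ z : ℂ, z ∈ R ↔ ∃ x y : ℤ, z = x + y * ω) (hded : IsDedekindDomain R) :
    (∃ (E : IntermediateField ℚ ℂ) (L : PeriodPair) (Ω : ℂ), FiniteDimensional ℚ E ∧ Ω ≠ 0 ∧
      (∀ z : ℂ, z ∈ L.lattice ↔ ∃ r : R, z = Ω * r) ∧ L.g₂ ∈ E ∧ L.g₃ ∈ E ∧
      ∀ (k : ℕ) (m : Fin k → ℕ) (f c : Fin k → Ideal R) (θ : Fin k → Ideal R → ℂ)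
        (n : Fin k → ℤ), (∀ i, 1 ≤ m i) → (∀ i, IsHecke (2 * m i - 1) (f i * c i) (θ i)) →
        ∃ (x : Fin k → ℂ) (d : Fin k → ℕ),
          (∀ i, CentralValue (m i) (θ i) (x i) ∧ (∀ y : ℂ, CentralValue (m i) (θ i) y → y = x i) ∧
            FinitePartOrder (2 * m i - 1) (f i * c i) (θ i) (d i)) ∧
          ((∀ i, (d i : ℤ) ∣ n i) → algProd Ω m x n ∈ adj E (values θ)) ∧
          ((∀ i, x i ≠ 0 ∧ n i ≠ 0 ∧ Squarefree (norm (c i)) ∧
              Nat.Coprime (norm (f i)) (norm (c i))) →
            (∀ i j, i ≠ j → Nat.Coprime (norm (f i * c i)) (norm (c j))) →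
            (∀ i, ∀ α : R, α - 1 ∈ f i → θ i (Ideal.span {α}) ∈ adj E {algProd Ω m x n}) ∧
            (∀ θ' : Fin k → Ideal R → ℂ, (∀ i, IsHecke (2 * m i - 1) (f i * c i) (θ' i)) →
              ∀ y : Fin k → ℂ, (∀ i, CentralValue (m i) (θ' i) (y i)) →
                ∏ i, x i ^ n i = ∏ i, y i ^ n i → ∀ i, ∀ α : R, α - 1 ∈ f i →
                  θ i (Ideal.span {α}) = θ' i (Ideal.span {α})) ∧
            (IsPrincipalIdealRing R → (∀ i, f i = ⊤) → (∀ i, (d i : ℤ) ∣ n i) →
              adj E {algProd Ω m x n} = adj E (values θ)))) ∧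
    ∀ ε : ℝ, 0 < ε → ∃ N0 : ℝ, ∀ m : ℕ, 1 ≤ m → ∀ (q : Ideal R) (θ : Ideal R → ℂ),
      IsHecke (2 * m - 1) q θ → N0 ≤ norm q → ∀ d : ℕ, FinitePartOrder (2 * m - 1) q θ d →
        (norm q : ℝ) ^ (2 / 3 + ε) ≤ d → m * (norm q : ℝ) ^ (1 + ε) ≤ (d : ℝ) ^ 2 →
          ∀ x : ℂ, CentralValue m θ x → x ≠ 0 := by
  have hbasic := Pool.Agent.W287.HK.h_basic
  have hcls := Pool.Agent.W571.HK.h_cls hbasic
  have hfp := Pool.Agent.W53.HK.h_fp hbasic hcls
  have hfpr := Pool.Agent.W366.HK.h_fpr hbasic hcls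
  have hlat := Pool.Agent.W585.HK.h_lat hbasic
  have hker := Pool.Agent.W692.HK.h_ker hbasic hcls hfpr
  have hcnt := Pool.Agent.W584.HK.h_cnt hbasic hcls hfpr hlat hker
  have hdivr := Pool.Agent.W513.HK.h_divr hbasic
  have hmu := Pool.Agent.W822.HK.h_mu hbasic
  have hcount := Pool.Agent.W240.HK.h_count hbasic hcnt hdivr
  have hdiv := Pool.Agent.W216.CY.t_div
  have hdec := Pool.Agent.W856.HK.h_dec hbasic
  have hgauss := Pool.Agent.W636.HK.h_gauss hbasic hfp
  have hpois := Pool.Agent.W348.HK.h_pois hbasic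
  have htheta := Pool.Agent.TH936.HK.h_theta hbasic hfp hdec hgauss hpois hcnt
  have hafe := Pool.Agent.TH936.HK.h_afe hbasic hfp hcnt hgauss htheta
  have htail := Pool.Agent.Y683.tailz hbasic hcnt hcount
  have hmain := Pool.Agent.Y683.mainb hbasic hcnt hdivr htail
  have hdual := Pool.Agent.Y683.dualb hdiv hbasic hcnt hker hfpr
  have hfin := Pool.Agent.Y683.finb hdiv hbasic hcnt hmu hmain hdual
  have hQ : Pool.Agent.W192.HK.QR R ω := ⟨hω, hR, hded⟩
  refine ⟨?_, fun ε hε => ?_⟩
  · obtain ⟨E, L, Ω, hE, hL, hg2, hg3, hD⟩ :=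
      Pool.Agent.K4H15.DP.exists_dat hbasic hfp hcnt hdec hafe hcls hQ
    refine ⟨E, L, Ω, hE, hL.ne, hL.mem, hg2, hg3, fun k m f c θ n hm hθ => ?_⟩
    have hθ' := fun i => (isHecke_iff _ _ _).1 (hθ i)
    have hF0 := fun i => Pool.Agent.K4H15.DP.exists_lv hafe hcls hQ (hm i) (hθ' i)
    choose F hF using hF0
    have hd0 := fun i => exists_order hbasic hfp hQ (hm i) (hθ' i)
    choose d hd using hd0
    have hpow : (∀ i, (d i : ℤ) ∣ n i) →
        algProd Ω m (fun i => F i (m i)) n ∈ adj E (values θ) := by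
      intro hdn
      refine Pool.Agent.K4H15.DP.pow_memF hD hm hθ' hF fun i α hα => ?_
      obtain ⟨e, he⟩ := hdn i
      have h1 : Pool.Agent.W192.HK.fp (2 * m i - 1) (θ i) α ^ d i = 1 := (hd i).1.2 α hα
      rw [he, zpow_mul, zpow_natCast, h1, one_zpow]
    refine ⟨fun i => F i (m i), d, fun i => ⟨(central_iff _ _ _).2 ⟨F i, hF i, rfl⟩,
      fun y hy => ?_, hd i⟩, hpow, fun hx hco => ?_⟩
    · obtain ⟨G, hG, rfl⟩ := (central_iff _ _ _).1 hy
      exact congrFun (hG.unique (hF i)) _
    · have hgen : ∀ i, ∀ α : R, α - 1 ∈ f i →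
          θ i (Ideal.span {α}) ∈ adj E {algProd Ω m (fun i => F i (m i)) n} := fun i α hα =>
        Pool.Agent.K4H15.DP.genF hbasic hfp hgauss hafe hcls hQ hD hm hθ' (fun i => (hx i).2.2.1)
          (fun i => (hx i).2.2.2) hco hF (fun i => (hx i).1) (fun i => (hx i).2.1) i α hα
      refine ⟨hgen, ?_, fun hpid hf hdn => ?_⟩
      · intro θ₂ hθ₂ y hy hxy i α hα
        have hθ₂' := fun i => (isHecke_iff _ _ _).1 (hθ₂ i)
        have hy' := fun i => (central_iff _ _ _).1 (hy i)
        choose G hG hGy using hy'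
        simp only [hGy] at hxy
        exact Pool.Agent.K4H15.DP.val_eq (hθ' i) (hθ₂' i)
          (Pool.Agent.K4H15.DP.injF hbasic hfp hgauss hafe hcls hQ hm hθ' hθ₂'
            (fun i => (hx i).2.2.1) (fun i => (hx i).2.2.2) hco hF hG (fun i => (hx i).2.1)
            (fun i => (hx i).1) hxy i α hα)
      · apply le_antisymm
        · refine sup_le le_sup_left ?_
          rw [IntermediateField.adjoin_le_iff]
          rintro _ rfl
          exact hpow hdn
        · refine sup_le le_sup_left ?_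
          rw [IntermediateField.adjoin_le_iff]
          intro z hz
          obtain ⟨i, I, rfl⟩ := Set.mem_iUnion.1 hz
          obtain ⟨α, rfl⟩ := (hpid.principal I).principal
          exact hgen i α (by rw [hf]; trivial)
  · obtain ⟨N0, H⟩ := Pool.Agent.Y683.nonvan hbasic hcls hcnt hfpr hfp hdec hafe hfin hQ ε hε
    have hnm : ∀ I : Ideal R, ((norm I : ℕ) : ℝ) = Pool.Agent.W192.HK.nm I := fun I => rfl
    refine ⟨N0, fun m hm q θ hθ hN d hd hd1 hd2 x hx => ?_⟩
    obtain ⟨F, hF, rfl⟩ := (central_iff _ _ _).1 hx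
    rw [hnm] at hN hd1 hd2
    obtain ⟨G, hG1, hG2, hG3⟩ := H m hm q θ ((isHecke_iff _ _ _).1 hθ) hN d
      (fun e he h => hd.2 ⟨he, h⟩) hd1 hd2
    rw [hF.unique ⟨hG1, hG2⟩]
    exact hG3

end Pool.Agent.Results.MP_cd171c_nt.CoefficientFieldGenerated
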