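import Pool.Agent.K4H15.BZ.Irr
import Pool.Agent.K4H15.BZ.Kum
import Pool.Agent.K4H55.BK.ShaB

/-!
# Beilinson's conjecture for all pairs of weight one forms in nonabelian towers

`E : y² = x³ + a x + b` is an elliptic curve over `ℚ`, `f` is its newform, and `K` is an imaginary quadratic field
of class number one in which the prime divisors of `2(4a³ + 27b²)` are unramified.  Suppose that
`L(E/K, 1) ≠ 0`, `E(K)[2] = 0` and the `2`-Selmer group of `E/K` is trivial.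

Theorem: for every `M ≥ 1` and every infinite set `Q` of admissible prime numbers there is an infinite extension
`K_∞ = K(√D : D ∈ 𝒟)` of `K`, Galois and not abelian over `ℚ`, unramified over `K` outside of `Q` and with the
places dividing `2(4a³ + 27b²) M` completely split, such that Beilinson's equality holds, with both sides zero,
for the triple products of `f` with all pairs `(g, h)` of weight one forms whose Artin representations
are trivial on the Galois group of `K_∞` and such that `g` or `h` is a cusp form: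

`ord_{s = 1} L(f ⊗ g ⊗ h, s) = dim Hom(V_gh, E(F) ⊗ ℂ) = 0`,

where `F ⊇ K` is any finite Galois extension of `ℚ` in `K_∞` such that `ρ_g` and `ρ_h` are trivial on the Galois group of
`F`.  (The homomorphisms are those of representations of `Gal(F/ℚ)`; they are the same for `F` and for the field `H` of
`ρ_g ⊗ ρ_h`.  The part of `CH¹(X_1(N)/H)_0 ⊗ L` attached to `f` is `E(H) ⊗ L`.  The representation of a cusp form is
irreducible.)

`𝒟` is a group modulo squares of elements of `𝓞_K`, stable under complex conjugation, with infinitely many elements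
which are, with their conjugates, independent modulo squares.  If `D ∈ 𝒟` and neither `D` nor `D D'` is a square (`D'` is
the conjugate), then `K(√D, √D')` is a dihedral extension of `ℚ` of degree `8` and its irreducible representation is that
of the theta series `g` of weight one of the character of `K(√D)/K`; one can take for `h` the Eisenstein series
with `χ_g χ_h = 1` (then `V_gh = V_g ⊕ V_g^∨`) or the theta series of `D r`, `r ∈ ℚ`.

The proof.  By Clifford's theorem the representation `ρ_g`, if it is irreducible, has trace zero outside of the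
Galois group of `K`.  So `V_gh` is induced from the sum of two characters `χ μ_1` and `χ μ_2` of `Gal(F/K)`, which are
quadratic and, by Kummer theory, belong to elements `D_1`, `D_2` of `𝒟`.  The Euler factor of `V_f ⊗ V_gh` at the prime
numbers `p`, unramified in `F`, is compared with those of the two `L`-functions `L(E^(D_i)/K, s)` at the places
above `p`.  At the finitely many ramified `p` the factors are quotients of values of polynomials which are not
zero at the roots of unity, as `|a_p| ≤ p`.  The `L(E^(D)/K, s)` for `D ∈ 𝒟` are entire and not zero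
at `s = 1`, and the `E^(D)(K)` are finite, by the construction of the group `𝒟` in `Pool.Agent.K4H15.BW.main` (the
result `BianchiTowers` of problem `MP_ec4e4b_nt`) and the `2`-descent `Pool.Agent.K4H55.BK.bk` of helper55.
-/

set_option autoImplicit false

open NumberField IsDedekindDomain Matrix WeierstrassCurve
open scoped TensorProduct Kronecker

namespace Pool.Agent.Results.MP_60ff09_nt.TowersOfPairs

/-- `K` is an imaginary quadratic field, `σ` is one of its two embeddings in `ℂ`, and `δ` generates the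
different of `K`: an `x ∈ K` is in `𝓞` if and only if `Tr(x y / δ) ∈ ℤ` for all `y ∈ 𝓞`. -/
structure IsFieldData (K : Type) [Field K] [NumberField K] (σ : K →+* ℂ) (δ : K) : Prop where
  quadratic : Module.finrank ℚ K = 2
  imaginary : ∃ x, (starRingEnd ℂ) (σ x) ≠ σ x
  different : ∀ x : K, (∃ a : 𝓞 K, (a : K) = x) ↔
    ∀ y : 𝓞 K, ∃ m : ℤ, Algebra.trace ℚ K (x * y / δ) = m

/-- `h(y) = ∫_0^∞ exp(-1/v - y v) dv = 2 y^(-1/2) K₁(2 √y)`, with the Bessel function `K₁`. -/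
noncomputable def bessel (y : ℝ) : ℝ := ∫ v in Set.Ioi (0 : ℝ), Real.exp (-(1 / v) - y * v)

/-- The additive character `e(z) = exp(2πi (z/δ + conj (z/δ)))` of `ℂ`, trivial on `𝓞`. -/
noncomputable def addChar (δ z : ℂ) : ℂ :=
  Complex.exp (2 * Real.pi * Complex.I * (z / δ + (starRingEnd ℂ) (z / δ)))

/-- The denominator `|c z + d|² + |c|² t²` of the action of the matrix `(a, b; c, d)` on the hyperbolic
space `{(z, t) : z ∈ ℂ, t > 0}`. -/
noncomputable def den (c d z : ℂ) (t : ℝ) : ℝ := ‖c * z + d‖ ^ 2 + ‖c‖ ^ 2 * t ^ 2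

/-- The first coordinate `((a z + b) conj (c z + d) + a conj(c) t²) / (|c z + d|² + |c|² t²)` of the image
of `(z, t)` under the matrix `(a, b; c, d)`. -/
noncomputable def actZ (a b c d z : ℂ) (t : ℝ) : ℂ :=
  ((a * z + b) * (starRingEnd ℂ) (c * z + d) + a * (starRingEnd ℂ) c * (t : ℂ) ^ 2) /
    (den c d z t : ℂ)

/-- The second coordinate, for a matrix of determinant one; in general it is `|ad - bc|` times this. -/
noncomputable def actT (c d z : ℂ) (t : ℝ) : ℝ := t / den c d z t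

section field
variable {K : Type} [Field K] [NumberField K]

/-- The function `Φ(z, t) = ∑_{x ∈ 𝓞} c((x)) t² h(N(x) (2πt/|δ|)²) e(x z)
  = (|δ|/π) ∑_{x ≠ 0} (c((x))/|x|) t K₁(4π|x|t/|δ|) e(x z)` on the hyperbolic space, with the coefficients `c`.
Up to a constant factor it is the primitive, zero at the cusp `∞`, of the harmonic differential of the
form of weight two with the Fourier coefficients `c`: its derivative by `t` is
`-4 ∑_{x ≠ 0} c((x)) t K₀(4π|x|t/|δ|) e(x z)`. -/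
noncomputable def primitive (σ : K →+* ℂ) (δ : K) (c : Ideal (𝓞 K) → ℂ) (z : ℂ) (t : ℝ) : ℂ :=
  ∑' x : 𝓞 K, c (Ideal.span {x}) * ((t ^ 2 * bessel (Ideal.absNorm (Ideal.span {x}) *
    (2 * Real.pi * t / ‖σ δ‖) ^ 2) : ℝ) : ℂ) * addChar (σ δ) (σ x * z)

/-- The numbers `c(I)` are the Hecke eigenvalues of a Bianchi newform `f` of weight two, level `(n)` and
trivial character over `K`: they satisfy `c(𝓞) = 1`, the (trivial) bound `c(I) = O(N(I))` and the Hecke
relations `c(v I) = c(v) c(I)` for `v ∤ I`, `c(v² I) = c(v) c(v I) - N(v) c(I)` for the primes `v ∤ n`, and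
`c(v I) = c(v) c(I)` for `v ∣ n`; the differential `dΦ` of the function `Φ` with the coefficients `c` is
invariant under `Γ₀(n)`, that is, `Φ(γ P) - Φ(P)` is a constant for every `γ ∈ Γ₀(n)`; and `dΦ` is an
eigenform, with the eigenvalue `±1`, of the Fricke involution `W = (0, -1; n, 0)`. -/
structure IsNewform (σ : K →+* ℂ) (δ : K) (n : 𝓞 K) (c : Ideal (𝓞 K) → ℂ) : Prop where
  level : n ≠ 0
  zero : c ⊥ = 0
  one : c ⊤ = 1
  bound : ∃ C : ℝ, ∀ I, ‖c I‖ ≤ C * Ideal.absNorm I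
  good : ∀ v : HeightOneSpectrum (𝓞 K), n ∉ v.asIdeal → ∀ I,
    (¬ v.asIdeal ∣ I → c (v.asIdeal * I) = c v.asIdeal * c I) ∧
    c (v.asIdeal * (v.asIdeal * I)) = c v.asIdeal * c (v.asIdeal * I) -
      Ideal.absNorm v.asIdeal * c I
  bad : ∀ v : HeightOneSpectrum (𝓞 K), n ∈ v.asIdeal → ∀ I,
    c (v.asIdeal * I) = c v.asIdeal * c I
  invariant : ∃ κ : SpecialLinearGroup (Fin 2) (𝓞 K) → ℂ,
    ∀ γ : SpecialLinearGroup (Fin 2) (𝓞 K), n ∣ γ.1 1 0 → ∀ (z : ℂ) (t : ℝ), 0 < t →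
      primitive σ δ c (actZ (σ (γ.1 0 0)) (σ (γ.1 0 1)) (σ (γ.1 1 0)) (σ (γ.1 1 1)) z t)
        (actT (σ (γ.1 1 0)) (σ (γ.1 1 1)) z t) = primitive σ δ c z t + κ γ
  fricke : ∃ w κ : ℂ, w * w = 1 ∧ ∀ (z : ℂ) (t : ℝ), 0 < t →
    primitive σ δ c (actZ 0 (-1) (σ n) 0 z t) (‖σ n‖ * actT (σ n) 0 z t) =
      -w * primitive σ δ c z t + κ

/-- The number of the affine points of `y² = x³ + a x + b` over the residue field of `v`. -/
noncomputable def points (a b : 𝓞 K) (v : HeightOneSpectrum (𝓞 K)) : ℕ :=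
  Nat.card {x : (𝓞 K ⧸ v.asIdeal) × (𝓞 K ⧸ v.asIdeal) //
    x.2 ^ 2 = x.1 ^ 3 + (Ideal.Quotient.mk v.asIdeal a) * x.1 + (Ideal.Quotient.mk v.asIdeal b)}

/-- `f` is the newform of `E : y² = x³ + a x + b`: for `v ∤ 2(4a³ + 27b²)` (so that `E` has good reduction at `v`)
the level is prime to `v` and `c(v) = N(v) + 1 - #E(𝓞/v)`. -/
def IsNewformOf (a b n : 𝓞 K) (c : Ideal (𝓞 K) → ℂ) : Prop :=
  ∀ v : HeightOneSpectrum (𝓞 K), 2 * (4 * a ^ 3 + 27 * b ^ 2) ∉ v.asIdeal →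
    n ∉ v.asIdeal ∧ c v.asIdeal = (Ideal.absNorm v.asIdeal : ℂ) - points a b v

open Classical in
/-- `L(f, s)`, the product of the Euler factors `(1 - c(v) N(v)^(-s) + N(v)^(1-2s))⁻¹`, without the last term if
`v` divides the level, extends to an entire function with `L(f, 1) ≠ 0`. -/
def Nonvanishing (n : 𝓞 K) (c : Ideal (𝓞 K) → ℂ) : Prop :=
  ∃ G : ℂ → ℂ, Differentiable ℂ G ∧ (∀ s : ℂ, 2 < s.re → HasProd
    (fun v : HeightOneSpectrum (𝓞 K) => (1 - c v.asIdeal * (Ideal.absNorm v.asIdeal : ℂ) ^ (-s) +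
      (if n ∈ v.asIdeal then 0 else (Ideal.absNorm v.asIdeal : ℂ) ^ (1 - 2 * s)))⁻¹) (G s)) ∧ G 1 ≠ 0

open Classical in
/-- The Bianchi form with the Hecke eigenvalues `c` is the base change to `K` of the newform with the Fourier
coefficients `A` of level `N`: `c(v) = A(p)` if `N(v) = p`, and if `N(v) = p²` then `c(v) = A(p)² - 2p`, or
`A(p)²` if `p ∣ N`. -/
def IsBaseChange (N : ℕ) (A : ℕ → ℂ) (c : Ideal (𝓞 K) → ℂ) : Prop :=
  ∀ p : ℕ, p.Prime → ∀ v : HeightOneSpectrum (𝓞 K), (p : 𝓞 K) ∈ v.asIdeal →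
    (Ideal.absNorm v.asIdeal = p → c v.asIdeal = A p) ∧
    (Ideal.absNorm v.asIdeal = p ^ 2 → c v.asIdeal = A p ^ 2 - (if p ∣ N then 0 else 2 * (p : ℂ)))

variable (K) in
/-- The prime divisors of `2(4a³ + 27b²)` are unramified in `K`. -/
def Unramified (a b : ℤ) : Prop :=
  ∀ p : ℕ, p.Prime → (p : ℤ) ∣ 2 * (4 * a ^ 3 + 27 * b ^ 2) → ∀ v : HeightOneSpectrum (𝓞 K),
    (p : 𝓞 K) ∈ v.asIdeal → (p : 𝓞 K) ∉ v.asIdeal ^ 2

section selmer
variable {L : Type} [Field L] [NumberField L] [Algebra K L]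

/-- `L = K(θ)` is the cubic field of `E`: `θ³ + a θ + b = 0`, and every element of `L` is `u + v θ + w θ²` for
unique `u, v, w ∈ K`.  So `x³ + a x + b` is irreducible over `K`, that is, `E(K)[2] = 0`. -/
structure IsCubicField (a b : 𝓞 K) (θ : L) : Prop where
  root : θ ^ 3 + algebraMap K L a * θ + algebraMap K L b = 0
  basis : ∀ β : L, ∃! t : K × K × K,
    β = algebraMap K L t.1 + algebraMap K L t.2.1 * θ + algebraMap K L t.2.2 * θ ^ 2

/-- The class of `α` in `(K_v ⊗ L)^×` modulo squares is the image of a point of `E(K_v)` under the Kummer map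
`(x, y) ↦ x - θ`.  (Every class of `E(K_v)` modulo `2 E(K_v)` contains a point with `y ≠ 0` or is zero.) -/
def LocalCondition (a b : 𝓞 K) (θ : L) (v : HeightOneSpectrum (𝓞 K)) (α : L) : Prop :=
  IsSquare ((1 : v.adicCompletion K) ⊗ₜ[K] α) ∨
  ∃ x y : v.adicCompletion K, y ≠ 0 ∧
    y ^ 2 = x ^ 3 + algebraMap K (v.adicCompletion K) a * x + algebraMap K (v.adicCompletion K) b ∧
    IsSquare (((1 : v.adicCompletion K) ⊗ₜ[K] α) * (x ⊗ₜ[K] (1 : L) - 1 ⊗ₜ[K] θ))

/-- The `2`-Selmer group of `E/K` is trivial.  As `E(K)[2] = 0` and `K` has no real places, it is the group of the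
classes of `α ∈ L^×` modulo squares such that the norm of `α` is a square, `w(α)` is even for all places
`w ∤ 2(4a³ + 27b²)` of `L`, and `α` satisfies the local conditions at the places `v ∣ 2(4a³ + 27b²)` of `K`. -/
def TrivialSelmer (a b : 𝓞 K) (θ : L) : Prop :=
  ∀ α : L, α ≠ 0 → IsSquare (Algebra.norm K α) →
    (∀ w : HeightOneSpectrum (𝓞 L), algebraMap (𝓞 K) (𝓞 L) (2 * (4 * a ^ 3 + 27 * b ^ 2)) ∉
      w.asIdeal → IsSquare (w.valuation L α)) →
    (∀ v : HeightOneSpectrum (𝓞 K), 2 * (4 * a ^ 3 + 27 * b ^ 2) ∈ v.asIdeal →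
      LocalCondition a b θ v α) → IsSquare α

end selmer

/-- The admissible prime numbers `q`: `q` is odd and splits in `K`, and the two places `v` of `K` above `q` do
not divide `2(4a³ + 27b²)` and the level, and `x³ + a x + b` has no root modulo `v`. -/
structure Admissible (a b n : 𝓞 K) (q : ℕ) : Prop where
  prime : q.Prime
  odd : q ≠ 2
  degree : ∀ v : HeightOneSpectrum (𝓞 K), (q : 𝓞 K) ∈ v.asIdeal → Ideal.absNorm v.asIdeal = q
  unramified : ∀ v : HeightOneSpectrum (𝓞 K), (q : 𝓞 K) ∈ v.asIdeal → (q : 𝓞 K) ∉ v.asIdeal ^ 2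
  good : ∀ v : HeightOneSpectrum (𝓞 K), (q : 𝓞 K) ∈ v.asIdeal →
    2 * (4 * a ^ 3 + 27 * b ^ 2) ∉ v.asIdeal ∧ n ∉ v.asIdeal ∧
      ∀ x : 𝓞 K, x ^ 3 + a * x + b ∉ v.asIdeal

/-- `D'` is the complex conjugate of `D`. -/
def IsConjugate (σ : K →+* ℂ) (D D' : 𝓞 K) : Prop := σ D' = (starRingEnd ℂ) (σ D)

/-- The set `𝒟` is a group modulo squares that is stable under complex conjugation. -/
structure IsStableGroup (σ : K →+* ℂ) (𝒟 : Set (𝓞 K)) : Prop where
  one : 1 ∈ 𝒟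
  mul : ∀ D ∈ 𝒟, ∀ D' ∈ 𝒟, ∃ D'' ∈ 𝒟, ∃ g : 𝓞 K, g ≠ 0 ∧ D'' * g ^ 2 = D * D'
  conj : ∀ D ∈ 𝒟, ∃ D' ∈ 𝒟, IsConjugate σ D D'

/-- The field `K_∞ = K(√D : D ∈ 𝒟)`, in the algebraic closure of `K`. -/
noncomputable def tower (𝒟 : Set (𝓞 K)) : IntermediateField K (AlgebraicClosure K) :=
  IntermediateField.adjoin K {x | ∃ D ∈ 𝒟, x ^ 2 = algebraMap K (AlgebraicClosure K) D}

/-- There are `D_j ∈ 𝒟`, with conjugates `D'_j`, such that all the `D_j` and `D'_j` together are independent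
modulo squares: no product of the `D_j` with `j ∈ S` and the `D'_j` with `j ∈ S'` is a square in `K`, unless `S` and
`S'` are empty. -/
def InfiniteRank (σ : K →+* ℂ) (𝒟 : Set (𝓞 K)) : Prop :=
  ∃ D D' : ℕ → 𝓞 K, (∀ j, D j ∈ 𝒟 ∧ D' j ∈ 𝒟 ∧ IsConjugate σ (D j) (D' j)) ∧
    ∀ S S' : Finset ℕ, S.Nonempty ∨ S'.Nonempty →
      ¬ IsSquare ((∏ j ∈ S, (D j : K)) * ∏ j ∈ S', (D' j : K))

/-- `D` is squarefree and composed of places above the `q ∈ Q`, `D ≡ 1` modulo `M`, and `D` is a square in `K_v` for the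
places `v ∣ 2(4a³ + 27b²) M`. -/
structure LocalConditions (a b : 𝓞 K) (M : ℕ) (Q : Set ℕ) (D : 𝓞 K) : Prop where
  squarefree : Squarefree D
  congruence : (M : 𝓞 K) ∣ D - 1
  support : ∀ v : HeightOneSpectrum (𝓞 K), D ∈ v.asIdeal → ∃ q ∈ Q, (q : 𝓞 K) ∈ v.asIdeal
  split : ∀ v : HeightOneSpectrum (𝓞 K), 2 * (4 * a ^ 3 + 27 * b ^ 2) * M ∈ v.asIdeal →
    IsSquare (algebraMap K (v.adicCompletion K) D)

/-- The extension `E` of `K` is of infinite degree over `K`, Galois over `ℚ`, and `Gal(E/ℚ)` is not abelian. -/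
structure InfiniteNonabelian (K : Type) [Field K] (E : Type) [Field E] [CharZero E] [Algebra K E] :
    Prop where
  infinite : ¬ FiniteDimensional K E
  galois : IsGalois ℚ E
  nonabelian : ∃ s t : E ≃ₐ[ℚ] E, s * t ≠ t * s

end field

/-- The number of the affine points of `y² = x³ + a x + b` over `𝔽_p`. -/
noncomputable def pts (a b : ℤ) (p : ℕ) : ℕ :=
  Nat.card {x : ZMod p × ZMod p // x.2 ^ 2 = x.1 ^ 3 + (a : ZMod p) * x.1 + (b : ZMod p)}

/-- `A(p)` are the Fourier coefficients at the prime numbers of the newform of level `N` of the curve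
`y² = x³ + a x + b` over `ℚ`: for `p ∤ 2(4a³ + 27b²)`, `p` does not divide `N` and `A(p) = p + 1 - #E(𝔽_p)`. -/
def IsNewformOfQ (a b : ℤ) (N : ℕ) (A : ℕ → ℂ) : Prop :=
  ∀ p : ℕ, p.Prime → ¬ (p : ℤ) ∣ 2 * (4 * a ^ 3 + 27 * b ^ 2) →
    ¬ p ∣ N ∧ A p = (p : ℂ) - pts a b p

/-- The curve `E : y² = x³ + a x + b` over `ℚ`. -/
def curve (a b : ℤ) : WeierstrassCurve ℚ := ⟨0, 0, 0, a, b⟩

section rep

variable {F : Type} [Field F] [NumberField F]

/-- The Frobenius automorphisms at the place `v` of `F`: the automorphisms `σ` of `F` with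
`σ x = x ^ p` modulo `v` for all the integers `x` of `F`, where `p` is the prime number below `v`.
They are a coset of the inertia group of `v`. -/
def FrobSet (v : HeightOneSpectrum (𝓞 F)) : Set (F ≃ₐ[ℚ] F) :=
  {σ | IsArithFrobAt ℤ σ v.asIdeal}

/-- The Kronecker product of matrices, as a homomorphism of monoids. -/
noncomputable def kron : Matrix (Fin 2) (Fin 2) ℂ × Matrix (Fin 2) (Fin 2) ℂ →*
    Matrix (Fin 2 × Fin 2) (Fin 2 × Fin 2) ℂ where
  toFun A := A.1 ⊗ₖ A.2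
  map_one' := Matrix.one_kronecker_one
  map_mul' A B := Matrix.mul_kronecker_mul A.1 B.1 A.2 B.2

/-- `ρ_g ⊗ ρ_h`, by the Kronecker products of matrices. -/
noncomputable def tensor (ρ ρ' : (F ≃ₐ[ℚ] F) →* GL (Fin 2) ℂ) :
    (F ≃ₐ[ℚ] F) →* GL (Fin 2 × Fin 2) ℂ :=
  (Units.map kron).comp (MulEquiv.prodUnits.symm.toMonoidHom.comp (ρ.prod ρ'))

/-- `ρ` is irreducible: its matrices have no common eigenvector. -/
def Irreducible {G : Type} [Group G] (ρ : G →* GL (Fin 2) ℂ) : Prop :=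
  ∀ x : Fin 2 → ℂ, x ≠ 0 →
    ¬ ∀ σ, ∃ l : ℂ, (ρ σ : Matrix (Fin 2) (Fin 2) ℂ).mulVec x = l • x

variable {κ : Type} [Fintype κ] [DecidableEq κ] (ρ : (F ≃ₐ[ℚ] F) →* GL κ ℂ)

/-- The action of the Frobenius automorphism at `v` on the vectors of `V = ℂ^κ` fixed by the inertia
group of `v`, extended by zero: the average of the matrices `ρ(σ)` over all the Frobenius
automorphisms `σ` at `v`. -/
noncomputable def frob (v : HeightOneSpectrum (𝓞 F)) : Matrix κ κ ℂ :=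
  (Nat.card (FrobSet v) : ℂ)⁻¹ • ∑ᶠ σ : FrobSet v, (ρ σ.1 : Matrix κ κ ℂ)

/-- The Euler factor of `L(V_f ⊗ V, s)` at the prime number `p`, where `v` is a place of `F` above `p`:
`det (1 - A(p) p^(-s) Φ + p^(1 - 2 s) Φ²)⁻¹` for `Φ = frob ρ v`, without the last term if `p ∣ N`.  (The fields
`F` of the theorem are unramified at the `p ∣ N`.) -/
noncomputable def euler (A : ℕ → ℂ) (N : ℕ) (v : HeightOneSpectrum (𝓞 F)) (s : ℂ) (p : ℕ) : ℂ :=
  (1 - (A p * (p : ℂ) ^ (-s)) • frob ρ v +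
    (if p ∣ N then 0 else (p : ℂ) ^ (1 - 2 * s)) • frob ρ v ^ 2).det⁻¹

/-- `L` is a meromorphic function on `ℂ`, and for `Re s > 2` it is `L(V_f ⊗ V, s)`, the product of the
Euler factors at all the prime numbers (for any choice of the places above them). -/
def IsLFunction (A : ℕ → ℂ) (N : ℕ) (L : ℂ → ℂ) : Prop :=
  MeromorphicOn L Set.univ ∧
    ∀ V : Nat.Primes → HeightOneSpectrum (𝓞 F),
      (∀ p : Nat.Primes, ((p : ℕ) : 𝓞 F) ∈ (V p).asIdeal) → ∀ s : ℂ, 2 < s.re →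
      HasProd (fun p : Nat.Primes => euler ρ A N (V p) s p) (L s)

variable (F) in
/-- The group `E(F)`. -/
abbrev Pts (a b : ℤ) : Type := ((curve a b).map (algebraMap ℚ F)).toAffine.Point

open Classical in
/-- The action of the automorphism `σ` on `E(F)`. -/
noncomputable def act (a b : ℤ) (σ : F ≃ₐ[ℚ] F) : Pts F a b →+ Pts F a b :=
  Affine.Point.map (W' := (curve a b).toAffine) (σ : F →ₐ[ℚ] F)

end rep

/-- For a representation `ρ` of the group `G` on `V = ℂ^κ` and an action `α` of `G` on the abelian group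
`A`: the linear map `φ : V → A ⊗ ℂ` commutes with `G`. -/
def IsHom {G κ A : Type} [Group G] [Fintype κ] [DecidableEq κ] [AddCommGroup A]
    (ρ : G →* GL κ ℂ) (α : G → A →+ A) (φ : (κ → ℂ) →ₗ[ℂ] (ℂ ⊗[ℤ] A)) : Prop :=
  ∀ (σ : G) (v : κ → ℂ),
    φ ((ρ σ : Matrix κ κ ℂ).mulVec v) = (α σ).toIntLinearMap.baseChange ℂ (φ v)

section hom

variable {G κ A : Type} [Group G] [Fintype κ] [DecidableEq κ] [AddCommGroup A]
  (ρ : G →* GL κ ℂ) (α : G → A →+ A)

theorem IsHom.zero : IsHom ρ α 0 := fun σ v => by simp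

variable {ρ α} in
theorem IsHom.add {φ ψ : (κ → ℂ) →ₗ[ℂ] (ℂ ⊗[ℤ] A)} (h : IsHom ρ α φ) (h' : IsHom ρ α ψ) :
    IsHom ρ α (φ + ψ) := fun σ v => by
  rw [LinearMap.add_apply, LinearMap.add_apply, h σ v, h' σ v, map_add]

variable {ρ α} in
theorem IsHom.smul (a : ℂ) {φ : (κ → ℂ) →ₗ[ℂ] (ℂ ⊗[ℤ] A)} (h : IsHom ρ α φ) :
    IsHom ρ α (a • φ) := fun σ v => by
  rw [LinearMap.smul_apply, LinearMap.smul_apply, h σ v, map_smul]

/-- `Hom_G(V, A ⊗ ℂ)`, the space of the linear maps which commute with the action of `G`. -/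
noncomputable def homs : Submodule ℂ ((κ → ℂ) →ₗ[ℂ] (ℂ ⊗[ℤ] A)) where
  carrier := {φ | IsHom ρ α φ}
  zero_mem' := IsHom.zero ρ α
  add_mem' := IsHom.add
  smul_mem' := IsHom.smul

/-- The dimension of `Hom_G(V, A ⊗ ℂ)`. -/
noncomputable def dimHom : ℕ := Module.finrank ℂ (homs ρ α)

theorem homs_zero [Finite A] : homs ρ α = ⊥ := by
  have h1 : ∀ x : ℂ ⊗[ℤ] A, x = 0 := by
    intro x
    induction x using TensorProduct.induction_on with
    | zero => rfl
    | tmul a P =>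
      have hN : (Nat.card A : ℂ) ≠ 0 := by
        have : 0 < Nat.card A := Nat.card_pos
        exact_mod_cast this.ne'
      have h2 : Nat.card A • P = 0 := card_nsmul_eq_zero'
      have h3 : a = (Nat.card A : ℤ) • (a * (Nat.card A : ℂ)⁻¹) := by
        rw [zsmul_eq_mul]
        push_cast
        field_simp
      rw [h3, TensorProduct.smul_tmul, natCast_zsmul, h2, TensorProduct.tmul_zero]
    | add x y hx hy => rw [hx, hy, add_zero]
  rw [eq_bot_iff]
  intro φ _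
  rw [Submodule.mem_bot]
  exact LinearMap.ext fun v => h1 _

theorem dimHom_zero [Finite A] : dimHom ρ α = 0 := by
  unfold dimHom
  rw [homs_zero]
  exact finrank_bot ℂ _

end hom

section pairs

variable (F : Type) [Field F] [NumberField F]

open Classical in
/-- Beilinson's equality for `(f, g, h)`, with both sides zero: `L(f ⊗ g ⊗ h, s)` has a meromorphic continuation
that is analytic at `s = 1`, and its order there is `dim Hom(V_gh, E(F) ⊗ ℂ)` and zero. -/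
def Equality (a b : ℤ) (N : ℕ) (A : ℕ → ℂ) (ρg ρh : (F ≃ₐ[ℚ] F) →* GL (Fin 2) ℂ) : Prop :=
  ∃ L : ℂ → ℂ, IsLFunction (tensor ρg ρh) A N L ∧ AnalyticAt ℂ L 1 ∧
    analyticOrderAt L 1 = dimHom (tensor ρg ρh) (act (F := F) a b) ∧ analyticOrderAt L 1 = 0

variable {F} in
theorem Equality.of {a b : ℤ} {N : ℕ} {A : ℕ → ℂ} {ρg ρh : (F ≃ₐ[ℚ] F) →* GL (Fin 2) ℂ}
    (hfin : Finite (Pts F a b)) {L : ℂ → ℂ} (h1 : IsLFunction (tensor ρg ρh) A N L)
    (h2 : AnalyticAt ℂ L 1) (h3 : L 1 ≠ 0) : Equality F a b N A ρg ρh := by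
  classical
  have h7 := dimHom_zero (A := Pts F a b) (tensor ρg ρh) (act (F := F) a b)
  have h8 : analyticOrderAt L 1 = 0 := analyticOrderAt_eq_zero.2 (Or.inr h3)
  refine ⟨L, h1, h2, ?_, h8⟩
  rw [h8, h7]
  rfl

/-- If `F` is Galois over `ℚ`, then `E(F)` is finite and Beilinson's equality holds for all pairs of two-dimensional
representations of `Gal(F/ℚ)`, one of which is irreducible. -/
def AllPairs (a b : ℤ) (N : ℕ) (A : ℕ → ℂ) : Prop :=
  IsGalois ℚ F → Finite (Pts F a b) ∧ ∀ ρg ρh : (F ≃ₐ[ℚ] F) →* GL (Fin 2) ℂ,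
    Irreducible ρg ∨ Irreducible ρh → Equality F a b N A ρg ρh

end pairs

/-- The equality holds for all the pairs `(g, h)` of the extension `K_∞`: for all the number fields `F` between `K` and
`K_∞`, Galois over `ℚ`, and all pairs of two-dimensional representations of `Gal(F/ℚ)`, one of which is irreducible. -/
def AllPairsOver (a b : ℤ) (N : ℕ) (A : ℕ → ℂ) {K : Type} [Field K]
    (E : IntermediateField K (AlgebraicClosure K)) : Prop :=
  ∀ F : IntermediateField K (AlgebraicClosure K), F ≤ E → ∀ _ : NumberField F, AllPairs F a b N A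

open Classical in
/-- Let `K` be an imaginary quadratic field of class number one, `E : y² = x³ + a x + b` an elliptic curve over `ℚ`
with the newform `f` of level `N`, and suppose that the prime divisors of `2(4a³ + 27b²)` are unramified in `K`,
`L(E/K, 1) = L(f_K, 1) ≠ 0` for the base change `f_K` of `f`, `E(K)[2] = 0` and the `2`-Selmer group of `E/K` is trivial.
There are infinitely many admissible prime numbers.  Let `M ≥ 1` and let `Q` be an infinite
set of admissible prime numbers.  There is a set `𝒟` of elements of `𝓞_K`, which is a group modulo squares and stable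
under complex conjugation, with the following properties.
(1) For all `D ∈ 𝒟`, `D` is squarefree and composed of places above `q ∈ Q`, `D ≡ 1` modulo `M`, and `D` is a square in
`K_v` for all `v ∣ 2(4a³ + 27b²) M`.
(2) `𝒟` contains infinitely many elements which are, with their conjugates, independent modulo squares.
(3) `K_∞ = K(√D : D ∈ 𝒟)` is of infinite degree over `K`, Galois over `ℚ`, and `Gal(K_∞/ℚ)` is not abelian.
(4) For all number fields `F` between `K` and `K_∞` which are Galois over `ℚ`, `E(F)` is finite, and for all pairs of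
two-dimensional representations `ρ_g`, `ρ_h` of `Gal(F/ℚ)`, one of which is irreducible, the function
`L(f ⊗ g ⊗ h, s)` has a meromorphic continuation, is analytic at `s = 1`, and Beilinson's equality holds:
`ord_{s = 1} L(f ⊗ g ⊗ h, s) = dim Hom(V_gh, E(F) ⊗ ℂ) = 0`. -/
theorem result (K : Type) [Field K] [NumberField K] [IsPrincipalIdealRing (𝓞 K)] (σ : K →+* ℂ)
    (δ : K) (hK : IsFieldData K σ δ) (a b : ℤ) (hΔ : 4 * a ^ 3 + 27 * b ^ 2 ≠ 0) (N : ℕ)
    (A : ℕ → ℂ) (hA : IsNewformOfQ a b N A) (hur : Unramified K a b)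
    (c : Ideal (𝓞 K) → ℂ) (hf : IsNewform σ δ (N : 𝓞 K) c)
    (hE : IsNewformOf (a : 𝓞 K) (b : 𝓞 K) (N : 𝓞 K) c) (hbc : IsBaseChange N A c)
    (hL : Nonvanishing (N : 𝓞 K) c) (L : Type) [Field L] [NumberField L] [Algebra K L] (θ : L)
    (hθ : IsCubicField (a : 𝓞 K) (b : 𝓞 K) θ) (hS : TrivialSelmer (a : 𝓞 K) (b : 𝓞 K) θ) :
    {q | Admissible (a : 𝓞 K) (b : 𝓞 K) (N : 𝓞 K) q}.Infinite ∧
    ∀ M : ℕ, M ≠ 0 → ∀ Q : Set ℕ, Q.Infinite →
      (∀ q ∈ Q, Admissible (a : 𝓞 K) (b : 𝓞 K) (N : 𝓞 K) q) →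
      ∃ 𝒟 : Set (𝓞 K), IsStableGroup σ 𝒟 ∧
        (∀ D ∈ 𝒟, LocalConditions (a : 𝓞 K) (b : 𝓞 K) M Q D) ∧ InfiniteRank σ 𝒟 ∧
        InfiniteNonabelian K (tower 𝒟) ∧ AllPairsOver a b N A (tower 𝒟) := by
  have h : K4H55.BI.IQ K σ δ := ⟨hK.quadratic, hK.imaginary, inferInstance, hK.different⟩
  have hf' : K4H55.BI.BF σ δ (N : 𝓞 K) c := ⟨hf.level, hf.zero, hf.one, hf.bound, hf.good, hf.bad,
    hf.invariant, hf.fricke⟩
  have hcub : K4H55.BD.Cub K θ := by
    refine ⟨fun p q r h0 => ?_, fun β => ?_⟩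
    · obtain ⟨t, ht, hu⟩ := hθ.basis 0
      have h1 := hu (p, q, r) h0.symm
      have h2 := hu (0, 0, 0) (by simp)
      have h3 := h1.trans h2.symm
      simp only [Prod.mk.injEq] at h3
      exact h3
    · obtain ⟨t, ht, -⟩ := hθ.basis β
      exact ⟨t.1, t.2.1, t.2.2, ht⟩
  have hadm : ∀ q, Admissible (a : 𝓞 K) (b : 𝓞 K) (N : 𝓞 K) q ↔
      q ∈ K4H55.BD.QE h (a : 𝓞 K) (b : 𝓞 K) (N : 𝓞 K) := by
    intro q
    constructor
    · intro hq
      exact ⟨K4H55.BD.spl_of h hq.prime hq.odd hq.degree hq.unramified, hq.good⟩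
    · rintro ⟨h1, h2⟩
      exact ⟨h1.pr, h1.odd, h1.deg, fun v hv => K4H55.BD.spl_sq h h1 hv, h2⟩
  have hΔ' : 4 * (a : 𝓞 K) ^ 3 + 27 * (b : 𝓞 K) ^ 2 ≠ 0 := by exact_mod_cast hΔ
  have hm : 2 * (4 * (a : 𝓞 K) ^ 3 + 27 * (b : 𝓞 K) ^ 2) =
      ((2 * (4 * a ^ 3 + 27 * b ^ 2) : ℤ) : 𝓞 K) := by push_cast; rfl
  set m : ℤ := 2 * (4 * a ^ 3 + 27 * b ^ 2) with hmdef
  have hm0 : m ≠ 0 := mul_ne_zero two_ne_zero hΔ
  refine ⟨?_, fun M hM Q hQi hQ => ?_⟩
  · have h1 := K4H15.BW.QE_inf h hΔ' hf.level (K4H55.BD.no_root hcub hθ.root)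
    have h2 : {q | Admissible (a : 𝓞 K) (b : 𝓞 K) (N : 𝓞 K) q} =
        K4H55.BD.QE h (a : 𝓞 K) (b : 𝓞 K) (N : 𝓞 K) := Set.ext hadm
    rw [h2]
    exact h1
  have hL' : K4H15.BW.NVD (a : 𝓞 K) (b : 𝓞 K) (N : 𝓞 K) c 1 := by
    obtain ⟨G, h1, h2, h3⟩ := hL
    refine ⟨G, h1, fun s hs => (h2 s hs).congr_fun fun v => ?_, h3⟩
    rw [K4H15.BZ.efD_eq hE (fun v _ => by rw [sub_self]; exact Ideal.zero_mem _)]
    have h4 : K4H15.BZ.lam v (1 : 𝓞 K) = 1 := by
      unfold K4H15.BZ.lam K4H55.BI.sym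
      by_cases h5 : (2 : 𝓞 K) ∈ v.asIdeal
      · rw [if_pos h5]
      · rw [if_neg h5, if_neg fun h6 => v.isPrime.ne_top ((Ideal.eq_top_iff_one _).2 h6),
          if_pos ⟨1, by simp⟩]
    unfold K4H15.BZ.Pf
    rw [h4, one_pow, one_mul, one_mul]
  set M' : ℕ := 8 * M * m.natAbs with hM'
  have hM'0 : M' ≠ 0 := mul_ne_zero (mul_ne_zero (by norm_num) hM) (Int.natAbs_ne_zero.2 hm0)
  obtain ⟨𝒟, h1, h2, h3, h4, D, h5, h6⟩ := K4H15.BW.main h hΔ' hf' hE hL' hM'0
    (fun q hq => (hadm q).1 (hQ q hq)) hQi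
  have hMM : (M : 𝓞 K) ∣ (M' : 𝓞 K) := ⟨8 * (m.natAbs : 𝓞 K), by rw [hM']; push_cast; ring⟩
  have h8M : (8 : 𝓞 K) ∣ (M' : 𝓞 K) := ⟨M * (m.natAbs : 𝓞 K), by rw [hM']; push_cast; ring⟩
  have hmM : (m : 𝓞 K) ∣ (M' : 𝓞 K) := by
    have h7 : ((m.natAbs : ℕ) : 𝓞 K) ∣ (M' : 𝓞 K) := ⟨8 * M, by rw [hM']; push_cast; ring⟩
    rcases Int.natAbs_eq m with h8 | h8
    · rw [h8, Int.cast_natCast]
      exact h7
    · rw [h8, Int.cast_neg, Int.cast_natCast]
      exact (neg_dvd).2 h7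
  have hbk : ∀ D ∈ 𝒟, Finite (K4H55.BD.crv ((a : K) * (D : K) ^ 2)
      ((b : K) * (D : K) ^ 3)).toAffine.Point := fun D hD => by
    have h7 := (K4H55.BK.bk hΔ' hcub hθ.root hS (h4 D hD).2.1
      (fun v hv => (h4 D hD).2.2.2.1 v (v.asIdeal.mul_mem_right _ hv))
      (fun v _ hv => ⟨((h4 D hD).2.2.2.2.1 v hv).1, ((h4 D hD).2.2.2.2.1 v hv).2.1⟩)).1.1
    have e1 : (((a : ℤ) : 𝓞 K) : K) = (a : K) := by simp
    have e2 : (((b : ℤ) : 𝓞 K) : K) = (b : K) := by simp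
    rw [e1, e2] at h7
    exact h7
  have hnsq : ∀ j, ¬ IsSquare (D j : K) := fun j => by
    have h7 := h6 {j} ∅ (Or.inl ⟨j, Finset.mem_singleton_self j⟩)
    rwa [Finset.prod_singleton, Finset.prod_empty, mul_one] at h7
  refine ⟨𝒟, ⟨h1, h3, fun D hD => ⟨_, h2 D hD, K4H55.BD.sg_tau h D⟩⟩, fun D hD => ⟨(h4 D hD).1,
    dvd_trans hMM (h4 D hD).2.2.1, fun v hv => ((h4 D hD).2.2.2.2.1 v hv).2.2,
      fun v hv => (h4 D hD).2.2.2.1 v ?_⟩,
    ⟨D, fun j => K4H55.BD.tau h (D j), fun j => ⟨h5 j, h2 _ (h5 j), K4H55.BD.sg_tau h _⟩, h6⟩,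
    ⟨K4H15.BW.tower_inf h h2 h5 (fun i j hij => ?_), K4H15.BW.tower_galois h h2,
    K4H15.BW.tower_noncomm h h2 (h5 0) (hnsq 0) ?_⟩, fun F hF hnum hgal => ?_⟩
  · obtain ⟨w, hw⟩ := hMM
    rw [hw, ← mul_assoc]
    exact v.asIdeal.mul_mem_right _ hv
  · have h7 := h6 {i, j} ∅ (Or.inl ⟨i, Finset.mem_insert_self i _⟩)
    rwa [Finset.prod_pair hij, Finset.prod_empty, mul_one] at h7
  · have h7 := h6 {0} {0} (Or.inl ⟨0, Finset.mem_singleton_self 0⟩)
    rwa [Finset.prod_singleton, Finset.prod_singleton] at h7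
  have hfd : FiniteDimensional K F := Module.Finite.of_restrictScalars_finite ℚ K F
  have hgK : IsGalois K F := IsGalois.tower_top_of_isGalois ℚ K F
  -- the points
  have hfin : Finite (Pts F a b) := by
    have h7 := K4H15.BW.tower_fin (a := (a : K)) (b := (b : K)) (fun D hD => (h4 D hD).2.1) h1 h3
      (by exact_mod_cast hΔ) hbk F hF
    have e : (curve a b).map (algebraMap ℚ F) =
        K4H55.BD.crv (algebraMap K F (a : K)) (algebraMap K F (b : K)) := by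
      unfold curve K4H55.BD.crv WeierstrassCurve.map
      simp
    unfold Pts
    rw [e]
    exact h7
  refine ⟨hfin, fun ρg ρh hirr => ?_⟩
  -- Kummer theory
  have hku := K4H15.BZ.kummer (K := K) (Ω := AlgebraicClosure K) (𝒟 := {D : K | ∃ D' ∈ 𝒟, (D' : K) = D})
    ⟨1, h1, map_one _⟩
    (by
      rintro _ ⟨D, hD, rfl⟩ h7
      exact (h4 D hD).2.1 (RingOfIntegers.ext h7))
    (by
      rintro _ ⟨D, hD, rfl⟩ _ ⟨D', hD', rfl⟩
      obtain ⟨D'', hD'', g, hg, h7⟩ := h3 D hD D' hD'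
      refine ⟨_, ⟨D'', hD'', rfl⟩, (g : K), fun h8 => hg (RingOfIntegers.ext h8), ?_⟩
      rw [← map_mul, ← h7, map_mul, map_pow])
    F (hF.trans (IntermediateField.adjoin.mono K _ _ (by
      rintro x ⟨D, hD, hx⟩
      exact ⟨_, ⟨D, hD, rfl⟩, hx⟩)))
  have hKD : K4H15.BZ.KD K 𝒟 F := by
    refine ⟨hku.1, fun χ => ?_⟩
    obtain ⟨_, ⟨D, hD, rfl⟩, y, hy, hχ⟩ := hku.2 χ
    exact ⟨D, hD, y, hy, hχ⟩
  have hρ0 : ∀ s α, (1 - α • K4H15.BT.cM (tensor ρg ρh s)).det =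
      K4H15.BZ.kp (K4H15.BT.cM (ρg s)).trace (K4H15.BT.cM (ρg s)).det
        (K4H15.BT.cM (ρh s)).trace (K4H15.BT.cM (ρh s)).det α := fun s α =>
    K4H15.BZ.kron_det (K4H15.BT.cM (ρg s)) (K4H15.BT.cM (ρh s)) α
  have h𝒟 : ∀ D ∈ 𝒟, D ≠ 0 ∧ (8 : 𝓞 K) ∣ D - 1 ∧
      (∀ w : HeightOneSpectrum (𝓞 K), 2 * (4 * (a : 𝓞 K) ^ 3 + 27 * (b : 𝓞 K) ^ 2) ∈ w.asIdeal →
        D - 1 ∈ w.asIdeal) ∧ K4H15.BW.NVD (a : 𝓞 K) (b : 𝓞 K) (N : 𝓞 K) c D := by
    intro D hD
    refine ⟨(h4 D hD).2.1, dvd_trans h8M (h4 D hD).2.2.1, fun w hw => ?_, (h4 D hD).2.2.2.2.2⟩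
    rw [hm] at hw
    obtain ⟨z, hz⟩ := dvd_trans hmM (h4 D hD).2.2.1
    rw [hz]
    exact w.asIdeal.mul_mem_right _ hw
  have hur' : ∀ w : HeightOneSpectrum (𝓞 K),
      2 * (4 * (a : 𝓞 K) ^ 3 + 27 * (b : 𝓞 K) ^ 2) ∈ w.asIdeal →
      ∀ p : ℕ, p.Prime → (p : 𝓞 K) ∈ w.asIdeal → (p : 𝓞 K) ∉ w.asIdeal ^ 2 := by
    intro w hw p hp hpw
    rw [hm] at hw
    exact hur p hp ((K4H55.BD.int_mem hp hpw).1 hw) w hpw
  have hA' : ∀ p : ℕ, p.Prime → ¬ (p : ℤ) ∣ m → ¬ p ∣ N ∧ ∃ k : ℕ, k ≤ 2 * p ∧ A p = p - k := by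
    intro p hp hpm
    obtain ⟨h7, h8⟩ := hA p hp hpm
    have : Fact p.Prime := ⟨hp⟩
    refine ⟨h7, pts a b p, ?_, h8⟩
    have h9 := K4H15.BZ.card_pts (R := ZMod p) (a : ZMod p) (b : ZMod p)
    rwa [Nat.card_zmod] at h9
  have hor : ∃ ρ1 ρ2 : (F ≃ₐ[ℚ] F) →* GL (Fin 2) ℂ, K4H15.BZ.Irr ρ1 ∧
      ∀ s α, (1 - α • K4H15.BT.cM (tensor ρg ρh s)).det =
      K4H15.BZ.kp (K4H15.BT.cM (ρ1 s)).trace (K4H15.BT.cM (ρ1 s)).det
        (K4H15.BT.cM (ρ2 s)).trace (K4H15.BT.cM (ρ2 s)).det α := by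
    rcases hirr with h7 | h7
    · exact ⟨ρg, ρh, h7, hρ0⟩
    · exact ⟨ρh, ρg, h7, fun s α => by rw [hρ0, K4H15.BZ.kp_swap]⟩
  obtain ⟨ρ1, ρ2, hirr1, hρ1⟩ := hor
  obtain ⟨l, l1, l2, l3, l4⟩ := K4H15.BZ.an_main h hKD h𝒟 hm hE hur' rfl hA'
    (fun p hp w hw => (hbc p hp w hw).1) (fun p hp w hw => (hbc p hp w hw).2)
    (fun s hs => K4H15.BZ.trace_irr h hKD hirr1 s hs) hρ1
  exact Equality.of hfin ⟨l1, fun V hV s hs => l2 V hV s hs⟩ l3 l4

end Pool.Agent.Results.MP_60ff09_nt.TowersOfPairs
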